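import Pool.Agent.U62.BM.Far
import Pool.Agent.X280.BP.GaussFam
import Pool.Agent.X280.HP.Sec5

/-!
# The original products of Birch and Swinnerton-Dyer on the double logarithmic scale: a Brownian limit law

For an elliptic curve `E` over `ℚ` let `P(x)` be the product of `N_p / p` over the good primes `p ≤ x` (a finite number of
primes does not matter for the question).  Birch and Swinnerton-Dyer expected `P(x) ~ C (log x) ^ r`.

We consider families of curves with `r = 0`, `1`, `2` or `6` marked points, with coefficients in a box of size `H ≥ y ^ K`: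

* **(A)** the function `u ↦ (log P(x) - (r + 1/2) u log log y) / (log log y) ^ (1/2)`, `log log x = u log log y`, `0 ≤ u ≤ 1`, behaves
  for `y → ∞` like a Brownian motion: its increments over any finite number of consecutive intervals are, after division
  by the square roots of the lengths, in the limit independent normal variables with mean 0 and variance 1. In particular
  (one interval) `log P(y)` is normally distributed with mean `(r + 1/2) log log y` and variance `log log y`.
* **(B)** For 100 percent of the curves no asymptotic relation `P(x) ~ A (log x) ^ κ` can be seen for the `x` up to the small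
  power `H ^ (1/K)` of the height: even on the short interval `exp ((log y) ^ δ) ≤ x ≤ y`, where `δ < 1` is arbitrarily
  near to `1`, `log P(x)` has distance at least `η (log log y) ^ (1/2)` from ALL the functions `κ log log x + A`, with
  real `κ` and `A` which may depend on the curve and on `y`.
-/

set_option autoImplicit false

namespace Pool.Agent.Results.MP_ad1693_nt.BrownianLaw

open Finset Filter MeasureTheory ProbabilityTheory

/-- The number of the points modulo `p` of the Weierstrass equation `E`, including the point at infinity. -/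
noncomputable def numPoints (E : WeierstrassCurve ℤ) (p : ℕ) : ℕ :=
  Nat.card {q : ZMod p × ZMod p // q.2 ^ 2 + (E.a₁ : ZMod p) * q.1 * q.2 + (E.a₃ : ZMod p) * q.2 =
    q.1 ^ 3 + (E.a₂ : ZMod p) * q.1 ^ 2 + (E.a₄ : ZMod p) * q.1 + (E.a₆ : ZMod p)} + 1

open Classical in
/-- The product of `N_p / p` over the primes `p ≤ x` which do not divide `2 Δ`. -/
noncomputable def product (E : WeierstrassCurve ℤ) (x : ℕ) : ℝ :=
  ∏ p ∈ (range (x + 1)).filter (fun p : ℕ => p.Prime ∧ ¬ (p : ℤ) ∣ 2 * E.Δ), ((numPoints E p : ℝ) / p)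

/-- The point `q` lies on the curve `E`. -/
def On (E : WeierstrassCurve ℤ) (q : ℤ × ℤ) : Prop :=
  q.2 ^ 2 + E.a₁ * q.1 * q.2 + E.a₃ * q.2 = q.1 ^ 3 + E.a₂ * q.1 ^ 2 + E.a₄ * q.1 + E.a₆

/-- `y² = x³ + c₀ x + c₁`. -/
def curves0 (c : Fin 2 → ℤ) : WeierstrassCurve ℤ := ⟨0, 0, 0, c 0, c 1⟩

/-- `y² + c₀ x y + c₂ y = x³ + c₁ x² + c₃ x`, with the point `(0, 0)`. -/
def curves1 (c : Fin 4 → ℤ) : WeierstrassCurve ℤ := ⟨c 0, c 1, c 2, c 3, 0⟩

/-- `y² + (c₀ x + c₁) y = x (x - 1) (x + c₂)`, with the points `(0, 0)` and `(1, 0)`. -/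
def curves2 (c : Fin 3 → ℤ) : WeierstrassCurve ℤ := ⟨c 0, c 2 - 1, c 1, -c 2, 0⟩

/-- The polynomial `w = u² - 30`, `u = c₀`. -/
def w (c : Fin 2 → ℤ) : ℤ := c 0 ^ 2 - 30

/-- The polynomial `G = 8 u v + 1092 - w²`, `u = c₀`, `v = c₁`. -/
def G (c : Fin 2 → ℤ) : ℤ := 8 * c 0 * c 1 + 1092 - w c ^ 2

/-- `y² + 2 w x y + (16 (v² - 820) - 2 w G) y = x (x - G - 192) (x - G + 192)`, a model of
`Y² = X (u X + v)² + (X - 1) (X - 4) (X - 9) (X - 16)`. -/
def curves6 (c : Fin 2 → ℤ) : WeierstrassCurve ℤ :=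
  ⟨2 * w c, -2 * G c, 16 * (c 1 ^ 2 - 820) - 2 * w c * G c, G c ^ 2 - 36864, 0⟩

/-- The first coordinate of the point of `curves6 c` over `X = i²`. -/
def ξ (c : Fin 2 → ℤ) (i : ℤ) : ℤ := 8 * i * (c 0 * i ^ 2 + c 1) + 8 * i ^ 4 + 4 * w c * i ^ 2 + G c

/-- The six marked points of `curves6 c`. -/
def marks (c : Fin 2 → ℤ) : Fin 6 → ℤ × ℤ :=
  ![(0, 0), (G c + 192, 0), (ξ c 1, 4 * ξ c 1), (ξ c 2, 16 * ξ c 2), (ξ c 3, 36 * ξ c 3),
    (ξ c 4, 64 * ξ c 4)]

/-- The proportion of the vectors `c` with coordinates of absolute value at most `H` which have the property `P`. -/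
noncomputable def proportion {n : ℕ} (H : ℕ) (P : (Fin n → ℤ) → Prop) : ℝ :=
  ({c : Fin n → ℤ | (∀ i, |c i| ≤ H) ∧ P c}.ncard : ℝ) / (2 * H + 1 : ℝ) ^ n

/-- The integral part of `exp ((log y) ^ t)`, the point with `log log x = t log log y`. -/
noncomputable def scale (t : ℝ) (y : ℕ) : ℕ := ⌊Real.exp (Real.log y ^ t)⌋₊

/-- The increments of `log P(x) - κ log log x` between the points `scale (t i) y` and `scale (t (i + 1)) y`, divided by
the square root of `(t (i + 1) - t i) log log y`. -/
noncomputable def increments (E : WeierstrassCurve ℤ) (κ : ℝ) {k : ℕ} (t : Fin (k + 1) → ℝ) (y : ℕ) : Fin k → ℝ :=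
  fun i => (Real.log (product E (scale (t i.succ) y)) - Real.log (product E (scale (t i.castSucc) y)) -
    κ * (t i.succ - t i.castSucc) * Real.log (Real.log y)) /
      √((t i.succ - t i.castSucc) * Real.log (Real.log y))

/-- For all `0 ≤ t 0 < t 1 < ⋯ < t k ≤ 1` the `k` normalised increments become independent standard normal variables: for every
Borel set `S` whose boundary is a null set for the standard normal law of `ℝ ^ k` the proportion of the `c` in the box of size
`H ≥ y ^ K` with increments in `S` differs by at most `ε` from the normal law of `S`, for all large `y`. -/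
def BrownianIncrements {n : ℕ} (W : (Fin n → ℤ) → WeierstrassCurve ℤ) (κ : ℝ) : Prop :=
  ∀ (k : ℕ) (t : Fin (k + 1) → ℝ), StrictMono t → 0 ≤ t 0 → t (Fin.last k) ≤ 1 →
    ∀ S : Set (Fin k → ℝ), MeasurableSet S →
      Measure.pi (fun _ : Fin k => gaussianReal 0 1) (frontier S) = 0 →
      ∀ ε : ℝ, 0 < ε → ∃ K y₀ : ℕ, ∀ y H : ℕ, y₀ ≤ y → y ^ K ≤ H →
        |proportion H (fun c => increments (W c) κ t y ∈ S) -
          (Measure.pi (fun _ : Fin k => gaussianReal 0 1)).real S| ≤ ε

/-- For all `0 ≤ δ < 1` and `ε > 0` there is an `η > 0` such that, for all large `y` and all `H ≥ y ^ K`, for all but at most the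
proportion `ε` of the `c` in the box of size `H` the function `log P(x)` on the interval `exp ((log y) ^ δ) ≤ x ≤ y` has
distance more than `η (log log y) ^ (1/2)` from all functions `κ log log x + A`. -/
def NoVisibleAsymptotic {n : ℕ} (W : (Fin n → ℤ) → WeierstrassCurve ℤ) : Prop :=
  ∀ δ ε : ℝ, 0 ≤ δ → δ < 1 → 0 < ε → ∃ η : ℝ, 0 < η ∧ ∃ K y₀ : ℕ, ∀ y H : ℕ, y₀ ≤ y → y ^ K ≤ H →
    proportion H (fun c => ∃ κ A : ℝ, ∀ x : ℕ, 3 ≤ x → scale δ y ≤ x → x ≤ y →
      |Real.log (product (W c) x) - κ * Real.log (Real.log x) - A| ≤ η * √(Real.log (Real.log y))) ≤ ε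

theorem product_eq (E : WeierstrassCurve ℤ) (x : ℕ) : product E x = Pool.Agent.X280.BP.bsd E x := by
  classical
  unfold product Pool.Agent.X280.BP.bsd
  refine Finset.prod_congr ?_ fun p _ => rfl
  ext p
  rw [Finset.mem_filter, Finset.mem_filter]
  rfl

open Pool.Agent.X280.BP Pool.Agent.X280.HP Pool.Agent.U62.BM in
theorem brownian_of {n : ℕ} {W : (Fin n → ℤ) → WeierstrassCurve ℤ}
    {V : ∀ p : ℕ, (Fin n → ZMod p) → WeierstrassCurve (ZMod p)} (h : Red W V) {r C : ℝ}
    (D : Dat (trc V) (fun p c => (V p c).Δ ≠ 0) r C) : BrownianIncrements W (r + 1 / 2) := by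
  classical
  intro k t ht h0 h1 S hS hS0 ε hε
  obtain ⟨K, y0, hK⟩ := law_dat D (fun y c => lq (W c) y) 2 (fun y c => h.lq_near y c) t ht h0 h1
    S hS hS0 hε
  refine ⟨K, y0, fun y H hy hH => ?_⟩
  have h2 := hK y H hy hH
  rw [lawE_real _ _ _ hS, ← ncard_box, Fintype.card_fin] at h2
  refine le_trans (le_of_eq ?_) h2
  unfold proportion nor
  congr 5
  have e : ∀ c : Fin n → ℤ, increments (W c) (r + 1 / 2) t y =
      inc (fun y c => lq (W c) y) (r + 1 / 2) t (fun j => cut (t j)) y c := by
    intro c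
    funext i
    have e2 : ∀ x : ℕ, Real.log (product (W c) x) = lq (W c) x := by
      intro x
      rw [product_eq, bsd_eq, Real.log_exp]
    unfold increments inc
    rw [e2, e2]
    rfl
  ext c
  simp only [e]

open Pool.Agent.X280.BP Pool.Agent.X280.HP Pool.Agent.U62.BM in
theorem far_of {n : ℕ} {W : (Fin n → ℤ) → WeierstrassCurve ℤ}
    {V : ∀ p : ℕ, (Fin n → ZMod p) → WeierstrassCurve (ZMod p)} (h : Red W V) {r C : ℝ}
    (D : Dat (trc V) (fun p c => (V p c).Δ ≠ 0) r C) : NoVisibleAsymptotic W := by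
  classical
  intro δ ε h0 h1 hε
  obtain ⟨η, hη, K, y0, hK⟩ := far_dat D (fun y c => lq (W c) y) 2 (fun y c => h.lq_near y c) h0 h1 hε
  refine ⟨η, hη, K, y0, fun y H hy hH => ?_⟩
  have h2 := hK y H hy hH
  rw [← ncard_box, Fintype.card_fin] at h2
  unfold proportion
  rw [div_le_iff₀ (by positivity)]
  refine le_trans (le_of_eq ?_) h2
  have e2 : ∀ (c : Fin n → ℤ) (x : ℕ), Real.log (product (W c) x) = lq (W c) x := by
    intro c x
    rw [product_eq, bsd_eq, Real.log_exp]
  simp only [e2]
  rfl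

/-- **The original products of Birch and Swinnerton-Dyer have Brownian increments on the double logarithmic scale, with drift
`r + 1/2` for families with `r = 0, 1, 2, 6` marked points, and for 100 percent of the curves they show no asymptotic relation
up to a small power of the height.** -/
theorem result :
    (BrownianIncrements curves0 (1 / 2) ∧ NoVisibleAsymptotic curves0) ∧
    ((∀ c, On (curves1 c) (0, 0)) ∧
      BrownianIncrements curves1 (3 / 2) ∧ NoVisibleAsymptotic curves1) ∧
    ((∀ c, On (curves2 c) (0, 0) ∧ On (curves2 c) (1, 0)) ∧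
      BrownianIncrements curves2 (5 / 2) ∧ NoVisibleAsymptotic curves2) ∧
    ((∀ c i, On (curves6 c) (marks c i)) ∧
      BrownianIncrements curves6 (13 / 2) ∧ NoVisibleAsymptotic curves6) := by
  refine ⟨⟨?_, far_of Pool.Agent.X280.HP.redV0 Pool.Agent.X280.BP.dat0⟩,
    ⟨fun c => Pool.Agent.X280.HP.on1 c, ?_, far_of Pool.Agent.X280.HP.redV1 Pool.Agent.X280.BP.dat1⟩,
    ⟨fun c => Pool.Agent.X280.HP.on2 c, ?_, far_of Pool.Agent.X280.HP.redV2 Pool.Agent.X280.BP.dat2⟩,
    ⟨fun c i => Pool.Agent.X280.HP.on6 c i, ?_, far_of Pool.Agent.X280.HP.redV6 Pool.Agent.X280.BP.dat6⟩⟩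
  · have h := brownian_of Pool.Agent.X280.HP.redV0 Pool.Agent.X280.BP.dat0
    norm_num at h
    exact h
  · have h := brownian_of Pool.Agent.X280.HP.redV1 Pool.Agent.X280.BP.dat1
    norm_num at h
    exact h
  · have h := brownian_of Pool.Agent.X280.HP.redV2 Pool.Agent.X280.BP.dat2
    norm_num at h
    exact h
  · have h := brownian_of Pool.Agent.X280.HP.redV6 Pool.Agent.X280.BP.dat6
    norm_num at h
    exact h

end Pool.Agent.Results.MP_ad1693_nt.BrownianLaw
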