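import Pool.Agent.U581.BS.Gen3
import Pool.Agent.X280.HP.Sec5

/-!
# The original products of Birch and Swinnerton-Dyer: the invariance principle

For an elliptic curve `E` over `ℚ` let `P(x)` be the product of `N_p / p` over the good primes `p ≤ x` (a finite number of
primes does not matter for the question).  Birch and Swinnerton-Dyer expected `P(x) ~ C (log x) ^ r`.

We consider families of curves with `r = 0`, `1`, `2` or `6` marked points, with coefficients in a box of size `H ≥ y ^ K`. The
deviation `log P(x) - (r + 1/2) log log x`, `x ≤ y`, as a function of `log log x / log log y` and divided by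
`(log log y) ^ (1/2)`, is a random continuous function on `[0, 1]`. The theorem: in the space `C[0, 1]` of all continuous
functions it converges in distribution to the Brownian motion, for `y → ∞` and `log H / log y → ∞`. So the law of every almost surely
continuous functional of the whole path converges: of the largest deviation
`max_{x ≤ y} |log P(x) - (r + 1/2) log log x| / (log log y) ^ (1/2)`, of its logarithmic mean, etc. This contains the tightness of
the paths (a maximal inequality for the partial products over the intervals of the double logarithmic scale), which is not a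
consequence of the limit law of the increments between finitely many points.
-/

set_option autoImplicit false

namespace Pool.Agent.Results.MP_ad1693_nt.InvariancePrinciple

open Finset Filter MeasureTheory ProbabilityTheory
open scoped BoundedContinuousFunction NNReal

/-- The number of the points modulo `p` of the Weierstrass equation `E`, including the point at infinity. -/
noncomputable def numPoints (E : WeierstrassCurve ℤ) (p : ℕ) : ℕ :=
  Nat.card {q : ZMod p × ZMod p // q.2 ^ 2 + (E.a₁ : ZMod p) * q.1 * q.2 + (E.a₃ : ZMod p) * q.2 =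
    q.1 ^ 3 + (E.a₂ : ZMod p) * q.1 ^ 2 + (E.a₄ : ZMod p) * q.1 + (E.a₆ : ZMod p)} + 1

open Classical in
/-- The product of `N_p / p` over the primes `p ≤ x` which do not divide `2 Δ`. -/
noncomputable def product (E : WeierstrassCurve ℤ) (x : ℕ) : ℝ :=
  ∏ p ∈ (range (x + 1)).filter (fun p : ℕ => p.Prime ∧ ¬ (p : ℤ) ∣ 2 * E.Δ), ((numPoints E p : ℝ) / p)

/-- The point `q` lies on the curve `E`. -/
def On (E : WeierstrassCurve ℤ) (q : ℤ × ℤ) : Prop :=
  q.2 ^ 2 + E.a₁ * q.1 * q.2 + E.a₃ * q.2 = q.1 ^ 3 + E.a₂ * q.1 ^ 2 + E.a₄ * q.1 + E.a₆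

/-- `y² = x³ + c₀ x + c₁`. -/
def curves0 (c : Fin 2 → ℤ) : WeierstrassCurve ℤ := ⟨0, 0, 0, c 0, c 1⟩

/-- `y² + c₀ x y + c₂ y = x³ + c₁ x² + c₃ x`, with the point `(0, 0)`. -/
def curves1 (c : Fin 4 → ℤ) : WeierstrassCurve ℤ := ⟨c 0, c 1, c 2, c 3, 0⟩

/-- `y² + (c₀ x + c₁) y = x (x - 1) (x + c₂)`, with the points `(0, 0)` and `(1, 0)`. -/
def curves2 (c : Fin 3 → ℤ) : WeierstrassCurve ℤ := ⟨c 0, c 2 - 1, c 1, -c 2, 0⟩

/-- The polynomial `w = u² - 30`, `u = c₀`. -/
def w (c : Fin 2 → ℤ) : ℤ := c 0 ^ 2 - 30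

/-- The polynomial `G = 8 u v + 1092 - w²`, `u = c₀`, `v = c₁`. -/
def G (c : Fin 2 → ℤ) : ℤ := 8 * c 0 * c 1 + 1092 - w c ^ 2

/-- `y² + 2 w x y + (16 (v² - 820) - 2 w G) y = x (x - G - 192) (x - G + 192)`, a model of
`Y² = X (u X + v)² + (X - 1) (X - 4) (X - 9) (X - 16)`. -/
def curves6 (c : Fin 2 → ℤ) : WeierstrassCurve ℤ :=
  ⟨2 * w c, -2 * G c, 16 * (c 1 ^ 2 - 820) - 2 * w c * G c, G c ^ 2 - 36864, 0⟩

/-- The first coordinate of the point of `curves6 c` over `X = i²`. -/
def ξ (c : Fin 2 → ℤ) (i : ℤ) : ℤ := 8 * i * (c 0 * i ^ 2 + c 1) + 8 * i ^ 4 + 4 * w c * i ^ 2 + G c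

/-- The six marked points of `curves6 c`. -/
def marks (c : Fin 2 → ℤ) : Fin 6 → ℤ × ℤ :=
  ![(0, 0), (G c + 192, 0), (ξ c 1, 4 * ξ c 1), (ξ c 2, 16 * ξ c 2), (ξ c 3, 36 * ξ c 3),
    (ξ c 4, 64 * ξ c 4)]

/-- The double logarithm. -/
noncomputable def loglog (x : ℕ) : ℝ := Real.log (Real.log x)

/-- The deviation of `log P(x)` from `κ log log x`. -/
noncomputable def deviation (E : WeierstrassCurve ℤ) (κ : ℝ) (x : ℕ) : ℝ :=
  Real.log (product E x) - κ * loglog x

/-- The path of `E` up to `y`: the polygonal path with the value `deviation E κ x / (log log y) ^ (1 / 2)` at the time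
`log log x / log log y` for the integers `2 ≤ x ≤ y` with `log log x ≥ 0`, linear in between. -/
noncomputable def path (E : WeierstrassCurve ℤ) (κ : ℝ) (y : ℕ) : C(unitInterval, ℝ) where
  toFun t := (deviation E κ 2 + ∑ x ∈ Finset.Ico 2 y, (deviation E κ (x + 1) - deviation E κ x) *
    max 0 (min 1 ((t * loglog y - loglog x) / (loglog (x + 1) - loglog x)))) / √(loglog y)
  continuous_toFun := by fun_prop

/-- The mean value of `f` over the integer vectors `c` with coordinates of absolute value at most `H`. -/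
noncomputable def average {n : ℕ} (H : ℕ) (f : (Fin n → ℤ) → ℝ) : ℝ :=
  (∑ c ∈ Fintype.piFinset (fun _ : Fin n => Finset.Icc (-(H : ℤ)) H), f c) / (2 * H + 1 : ℝ) ^ n

/-- The path of `B` on `[0, 1]` as a continuous function (and `0` if it is not continuous). -/
noncomputable def unitPath {Ω : Type} (B : ℝ≥0 → Ω → ℝ) (ω : Ω) : C(unitInterval, ℝ) :=
  ContinuousMap.mkD (fun t : unitInterval => B ⟨(t : ℝ), t.2.1⟩ ω) 0

/-- The random function `path (W c) κ y` of the curves `W c` with `c` in the box of size `H ≥ y ^ K` is for large `y` and `K` in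
distribution near to the Brownian motion: for every bounded continuous function `F` on `C[0, 1]` and every `ε > 0` the average of
`F` over the paths differs from the mean value of `F` of the Brownian motion by at most `ε`. -/
def Invariance {n : ℕ} (W : (Fin n → ℤ) → WeierstrassCurve ℤ) (κ : ℝ) : Prop :=
  ∀ (Ω : Type) [MeasurableSpace Ω] (μ : Measure Ω) [IsProbabilityMeasure μ] (B : ℝ≥0 → Ω → ℝ),
    IsBrownianReal B μ → ∀ (F : C(unitInterval, ℝ) →ᵇ ℝ) (ε : ℝ), 0 < ε →
      ∃ K : ℕ, ∀ y H : ℕ, K ≤ y → y ^ K ≤ H →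
        |average H (fun c => F (path (W c) κ y)) - ∫ ω, F (unitPath B ω) ∂μ| ≤ ε

theorem product_eq (E : WeierstrassCurve ℤ) (x : ℕ) : product E x = Pool.Agent.X280.BP.bsd E x := by
  classical
  unfold product Pool.Agent.X280.BP.bsd
  refine Finset.prod_congr ?_ fun p _ => rfl
  ext p
  rw [Finset.mem_filter, Finset.mem_filter]
  rfl

open Pool.Agent.X280.BP Pool.Agent.X280.HP Pool.Agent.U581.BS in
theorem path_eq (E : WeierstrassCurve ℤ) (κ : ℝ) (y : ℕ) :
    path E κ y = lpath (fun n => lq E n - κ * Lg n) y := by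
  ext t
  have e2 : ∀ x : ℕ, deviation E κ x = lq E x - κ * Lg x := by
    intro x
    unfold deviation
    rw [product_eq, bsd_eq, Real.log_exp]
    rfl
  rw [lpath_apply]
  unfold npoly
  change (deviation E κ 2 + ∑ x ∈ Finset.Ico 2 y, (deviation E κ (x + 1) - deviation E κ x) *
    max 0 (min 1 ((t * loglog y - loglog x) / (loglog (x + 1) - loglog x)))) / √(loglog y) = _
  simp only [e2]
  rw [Finset.sum_Ico_eq_sum_range]
  congr 2
  refine Finset.sum_congr rfl fun k _ => ?_
  rw [show 2 + k = k + 2 by ring, show k + 2 + 1 = k + 1 + 2 by ring]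
  rfl

open Pool.Agent.X280.BP Pool.Agent.X280.HP Pool.Agent.U581.BS in
theorem invariance_of {n : ℕ} {W : (Fin n → ℤ) → WeierstrassCurve ℤ}
    {V : ∀ p : ℕ, (Fin n → ZMod p) → WeierstrassCurve (ZMod p)} (h : Red W V) {r C : ℝ}
    (D : Dat (trc V) (fun p c => (V p c).Δ ≠ 0) r C) : Invariance W (r + 1 / 2) := by
  intro Ω _ μ _ B hB F ε hε
  letI : MeasurableSpace C(unitInterval, ℝ) := borel _
  haveI : BorelSpace C(unitInterval, ℝ) := ⟨rfl⟩
  obtain ⟨K, hK⟩ := dat_main D (fun y c => lq (W c) y) (fun y c => h.lq_near y c) hB F hε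
  refine ⟨K, fun y H hy hH => ?_⟩
  have h1 := hK y H hy hH
  simp only [← path_eq] at h1
  unfold Pool.Agent.Y722.HS.EB at h1
  rw [Fintype.card_fin] at h1
  exact h1

/-- **The invariance principle for the original products of Birch and Swinnerton-Dyer**, with drift `r + 1/2` for families with
`r = 0, 1, 2, 6` marked points. -/
theorem result :
    Invariance curves0 (1 / 2) ∧
    ((∀ c, On (curves1 c) (0, 0)) ∧ Invariance curves1 (3 / 2)) ∧
    ((∀ c, On (curves2 c) (0, 0) ∧ On (curves2 c) (1, 0)) ∧ Invariance curves2 (5 / 2)) ∧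
    ((∀ c i, On (curves6 c) (marks c i)) ∧ Invariance curves6 (13 / 2)) := by
  refine ⟨?_, ⟨fun c => Pool.Agent.X280.HP.on1 c, ?_⟩, ⟨fun c => Pool.Agent.X280.HP.on2 c, ?_⟩,
    ⟨fun c i => Pool.Agent.X280.HP.on6 c i, ?_⟩⟩
  · have h := invariance_of Pool.Agent.X280.HP.redV0 Pool.Agent.X280.BP.dat0
    norm_num at h
    exact h
  · have h := invariance_of Pool.Agent.X280.HP.redV1 Pool.Agent.X280.BP.dat1
    norm_num at h
    exact h
  · have h := invariance_of Pool.Agent.X280.HP.redV2 Pool.Agent.X280.BP.dat2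
    norm_num at h
    exact h
  · have h := invariance_of Pool.Agent.X280.HP.redV6 Pool.Agent.X280.BP.dat6
    norm_num at h
    exact h

end Pool.Agent.Results.MP_ad1693_nt.InvariancePrinciple
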