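import Pool.Agent.U62.LD.Fin

/-!
# The large deviations of the products of Birch and Swinnerton-Dyer

For random curves of four families with `r = 0, 1, 2, 6` marked points we find the exact exponents of the large deviations, on the
scale `log log T`, of the product `P(T)` of `N_p / p`, `p ≤ T`, and jointly of the logarithms of the absolute values of the
partial Euler products `L_T(1 + i t)` at finitely many points `t ≥ 0` of the line `Re s = 1` (where `P(T) = 1 / |L_T(1)|`):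
`P(T)` has the normal order `(log T) ^ (r + 1/2)`, and the share of the curves with `P(T) ≥ (log T) ^ (r + 1/2 + β)` is
`(log T) ^ (- β ^ 2 / 2 + o(1))`, for every fixed `β ≥ 0`.
-/

set_option autoImplicit false

namespace Pool.Agent.Results.MP_ad1693_nt.LargeDeviations

open Finset

/-- The number of the points modulo `p` of the Weierstrass equation `E`, including the point at infinity. -/
noncomputable def numPoints (E : WeierstrassCurve ℤ) (p : ℕ) : ℕ :=
  Nat.card {q : ZMod p × ZMod p // q.2 ^ 2 + (E.a₁ : ZMod p) * q.1 * q.2 + (E.a₃ : ZMod p) * q.2 =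
    q.1 ^ 3 + (E.a₂ : ZMod p) * q.1 ^ 2 + (E.a₄ : ZMod p) * q.1 + (E.a₆ : ZMod p)} + 1

open Classical in
/-- The partial Euler product at `s` over the primes `p ≤ T` which do not divide `6 Δ`. -/
noncomputable def eulerProduct (E : WeierstrassCurve ℤ) (T : ℕ) (s : ℂ) : ℂ :=
  ∏ p ∈ (range (T + 1)).filter (fun p : ℕ => p.Prime ∧ ¬ (p : ℤ) ∣ 6 * E.Δ),
    (1 - ((p : ℂ) + 1 - numPoints E p) * (p : ℂ) ^ (-s) + (p : ℂ) ^ (1 - 2 * s))⁻¹

open Classical in
/-- The product of Birch and Swinnerton-Dyer over the primes `p ≤ T` which do not divide `6 Δ`. -/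
noncomputable def birchProduct (E : WeierstrassCurve ℤ) (T : ℕ) : ℝ :=
  ∏ p ∈ (range (T + 1)).filter (fun p : ℕ => p.Prime ∧ ¬ (p : ℤ) ∣ 6 * E.Δ), (numPoints E p : ℝ) / p

/-- The point `q` lies on the curve `E`. -/
def On (E : WeierstrassCurve ℤ) (q : ℤ × ℤ) : Prop :=
  q.2 ^ 2 + E.a₁ * q.1 * q.2 + E.a₃ * q.2 = q.1 ^ 3 + E.a₂ * q.1 ^ 2 + E.a₄ * q.1 + E.a₆

/-- `y² = x³ + c₀ x + c₁`. -/
def curves0 (c : Fin 2 → ℤ) : WeierstrassCurve ℤ := ⟨0, 0, 0, c 0, c 1⟩

/-- `y² + c₀ x y + c₂ y = x³ + c₁ x² + c₃ x`, with the point `(0, 0)`. -/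
def curves1 (c : Fin 4 → ℤ) : WeierstrassCurve ℤ := ⟨c 0, c 1, c 2, c 3, 0⟩

/-- `y² + (c₀ x + c₁) y = x (x - 1) (x + c₂)`, with the points `(0, 0)` and `(1, 0)`. -/
def curves2 (c : Fin 3 → ℤ) : WeierstrassCurve ℤ := ⟨c 0, c 2 - 1, c 1, -c 2, 0⟩

/-- The polynomial `w = u² - 30`, `u = c₀`. -/
def w (c : Fin 2 → ℤ) : ℤ := c 0 ^ 2 - 30

/-- The polynomial `G = 8 u v + 1092 - w²`, `u = c₀`, `v = c₁`. -/
def G (c : Fin 2 → ℤ) : ℤ := 8 * c 0 * c 1 + 1092 - w c ^ 2

/-- `y² + 2 w x y + (16 (v² - 820) - 2 w G) y = x (x - G - 192) (x - G + 192)`, a model of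
`Y² = X (u X + v)² + (X - 1) (X - 4) (X - 9) (X - 16)`. -/
def curves6 (c : Fin 2 → ℤ) : WeierstrassCurve ℤ :=
  ⟨2 * w c, -2 * G c, 16 * (c 1 ^ 2 - 820) - 2 * w c * G c, G c ^ 2 - 36864, 0⟩

/-- The first coordinate of the point of `curves6 c` over `X = i²`. -/
def ξ (c : Fin 2 → ℤ) (i : ℤ) : ℤ := 8 * i * (c 0 * i ^ 2 + c 1) + 8 * i ^ 4 + 4 * w c * i ^ 2 + G c

/-- The six marked points of `curves6 c`. -/
def marks (c : Fin 2 → ℤ) : Fin 6 → ℤ × ℤ :=
  ![(0, 0), (G c + 192, 0), (ξ c 1, 4 * ξ c 1), (ξ c 2, 16 * ξ c 2), (ξ c 3, 36 * ξ c 3),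
    (ξ c 4, 64 * ξ c 4)]

/-- The proportion of the vectors `c` with coordinates of absolute value at most `H` which have the property `P`. -/
noncomputable def proportion {n : ℕ} (H : ℕ) (P : (Fin n → ℤ) → Prop) : ℝ :=
  ({c : Fin n → ℤ | (∀ i, |c i| ≤ H) ∧ P c}.ncard : ℝ) / (2 * H + 1 : ℝ) ^ n

open Classical in
/-- The coefficient of `- log log T` in the mean: `r + 1/2` at the central point and `0` at the other points. -/
noncomputable def drift (r t : ℝ) : ℝ := if t = 0 then r + 1 / 2 else 0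

open Classical in
/-- The coefficient of `log log T` in the variance: `1` at the central point and `1/2` at the other points. -/
noncomputable def variance (t : ℝ) : ℝ := if t = 0 then 1 else 1 / 2

/-- The number `x` lies between `(log T) ^ (- R - ε)` and `(log T) ^ (- R + ε)`. -/
def Between (T : ℕ) (R ε x : ℝ) : Prop := Real.log T ^ (-(R + ε)) ≤ x ∧ x ≤ Real.log T ^ (-(R - ε))

/-- The share of the curves with `σ_j (log |L_T(1 + i t_j)| + d_j log log T) ≥ β_j log log T` for all `j` is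
`(log T) ^ (- Σ β_j ^ 2 / (2 v_j) + o(1))`, for distinct `t_j ≥ 0`, signs `σ_j` and `β_j ≥ 0`. -/
def JointTails {n : ℕ} (W : (Fin n → ℤ) → WeierstrassCurve ℤ) (r : ℝ) : Prop :=
  ∀ (k : ℕ) (t : Fin k → ℝ), (∀ j, 0 ≤ t j) → Function.Injective t → ∀ σ : Fin k → ℝ, (∀ j, σ j = 1 ∨ σ j = -1) →
    ∀ β : Fin k → ℝ, (∀ j, 0 ≤ β j) → ∀ ε : ℝ, 0 < ε →
    ∃ K : ℕ, ∀ T H : ℕ, K ≤ T → (T : ℝ) ^ ((K : ℝ) * Real.log (Real.log T)) ≤ H →
      Between T (∑ j, β j ^ 2 / (2 * variance (t j))) ε (proportion H (fun c => ∀ j, β j * Real.log (Real.log T) ≤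
        σ j * (Real.log ‖eulerProduct (W c) T (1 + t j * Complex.I)‖ + drift r (t j) * Real.log (Real.log T))))

/-- The shares of the curves with `P(T) ≥ (log T) ^ (r + 1/2 + β)`, respectively with `P(T) ≤ (log T) ^ (r + 1/2 - β)`, are
`(log T) ^ (- β ^ 2 / 2 + o(1))`, for `β ≥ 0`. -/
def BirchTails {n : ℕ} (W : (Fin n → ℤ) → WeierstrassCurve ℤ) (r : ℝ) : Prop :=
  ∀ β : ℝ, 0 ≤ β → ∀ ε : ℝ, 0 < ε → ∃ K : ℕ, ∀ T H : ℕ, K ≤ T → (T : ℝ) ^ ((K : ℝ) * Real.log (Real.log T)) ≤ H →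
    Between T (β ^ 2 / 2) ε (proportion H (fun c => Real.log T ^ (r + 1 / 2 + β) ≤ birchProduct (W c) T)) ∧
    Between T (β ^ 2 / 2) ε (proportion H (fun c => birchProduct (W c) T ≤ Real.log T ^ (r + 1 / 2 - β)))

open Pool.Agent.X280.BP Pool.Agent.X280.HP Pool.Agent.U62.SC Pool.Agent.U62.LD in
theorem joint_of {n : ℕ} {W : (Fin n → ℤ) → WeierstrassCurve ℤ}
    {V : ∀ p : ℕ, (Fin n → ZMod p) → WeierstrassCurve (ZMod p)} (h : Red W V) {r C : ℝ}
    (D : Dat (trc V) (fun p c => (V p c).Δ ≠ 0) r C) : JointTails W r := by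
  intro k t ht0 hti σ hσ β hβ ε hε
  obtain ⟨K, hK⟩ := ldp D t σ ht0 hti (fun j => by rcases hσ j with h1 | h1 <;> rw [h1] <;> simp) hβ hε
  refine ⟨K, fun T H hT hH => ?_⟩
  have e1 : ∀ j, cen r T (t j) = drift r (t j) * Real.log (Real.log T) := by
    intro j
    unfold cen drift
    split_ifs <;> ring
  have e2 : ∀ j, nu (t j) = variance (t j) := by
    intro j
    unfold nu variance
    split_ifs <;> rfl
  have e3 : rate t β = ∑ j, β j ^ 2 / (2 * variance (t j)) := by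
    unfold rate
    simp only [e2]
  have e4 : (fun c => ∀ j, β j * Real.log (Real.log T) ≤
        σ j * (Real.log ‖eulerProduct (W c) T (1 + t j * Complex.I)‖ + drift r (t j) * Real.log (Real.log T))) =
      Pool.Agent.U62.LD.Ev (trc V) (fun p c => (V p c).Δ ≠ 0) r t σ β T := by
    funext c
    unfold Pool.Agent.U62.LD.Ev
    simp only [e1]
    have e5 : ∀ j, Real.log ‖eulerProduct (W c) T (1 + t j * Complex.I)‖ =
        lel (trc V) (fun p c => (V p c).Δ ≠ 0) T (t j) c := fun j => pep_lel h D.hasse T (t j) c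
    simp only [e5]
  have h1 := hK T H hT hH
  rw [e3, ← e4] at h1
  exact h1

/-- The partial Euler product at `1` and the product of Birch and Swinnerton-Dyer. -/
theorem birch_eq (E : WeierstrassCurve ℤ) (T : ℕ) :
    ‖eulerProduct E T (1 + ((0 : ℝ) : ℂ) * Complex.I)‖ = (birchProduct E T)⁻¹ := by
  classical
  unfold eulerProduct birchProduct
  rw [norm_prod, ← Finset.prod_inv_distrib]
  refine Finset.prod_congr rfl fun p hp => ?_
  obtain ⟨_, hpp, _⟩ := Finset.mem_filter.1 hp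
  have hp0 : (0 : ℝ) < p := by exact_mod_cast hpp.pos
  have hpc : (p : ℂ) ≠ 0 := by exact_mod_cast hp0.ne'
  have e : (1 : ℂ) - ((p : ℂ) + 1 - numPoints E p) * (p : ℂ) ^ (-(1 + ((0 : ℝ) : ℂ) * Complex.I)) +
      (p : ℂ) ^ (1 - 2 * (1 + ((0 : ℝ) : ℂ) * Complex.I)) = (((numPoints E p : ℝ) / p : ℝ) : ℂ) := by
    have e1 : -(1 + ((0 : ℝ) : ℂ) * Complex.I) = -1 := by simp
    have e2 : 1 - 2 * (1 + ((0 : ℝ) : ℂ) * Complex.I) = -1 := by
      simp
      norm_num
    rw [e1, e2, Complex.cpow_neg_one]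
    push_cast
    field_simp
    ring
  rw [norm_inv, e, Complex.norm_real, Real.norm_of_nonneg (by positivity)]

theorem birch_pos (E : WeierstrassCurve ℤ) (T : ℕ) : 0 < birchProduct E T := by
  classical
  unfold birchProduct
  refine Finset.prod_pos fun p hp => ?_
  obtain ⟨_, hpp, _⟩ := Finset.mem_filter.1 hp
  have hp0 : (0 : ℝ) < p := by exact_mod_cast hpp.pos
  have h1 : (0 : ℝ) < numPoints E p := by
    have : 0 < numPoints E p := by
      unfold numPoints
      omega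
    exact_mod_cast this
  positivity

theorem birch_of {n : ℕ} {W : (Fin n → ℤ) → WeierstrassCurve ℤ} {r : ℝ} (h : JointTails W r) : BirchTails W r := by
  intro β hβ ε hε
  have hv : ∑ j : Fin 1, (fun _ => β) j ^ 2 / (2 * variance ((fun _ : Fin 1 => (0 : ℝ)) j)) = β ^ 2 / 2 := by
    simp [variance]
  have hinj : Function.Injective (fun _ : Fin 1 => (0 : ℝ)) := fun i j _ => Subsingleton.elim i j
  obtain ⟨K1, hK1⟩ := h 1 (fun _ => 0) (fun _ => le_rfl) hinj (fun _ => -1) (fun _ => Or.inr rfl) (fun _ => β) (fun _ => hβ) ε hε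
  obtain ⟨K2, hK2⟩ := h 1 (fun _ => 0) (fun _ => le_rfl) hinj (fun _ => 1) (fun _ => Or.inl rfl) (fun _ => β) (fun _ => hβ) ε hε
  rw [hv] at hK1 hK2
  refine ⟨max (max K1 K2) 16, fun T H hT hH => ?_⟩
  have hT16 : 16 ≤ T := (le_max_right _ _).trans hT
  have hTr : (16 : ℝ) ≤ T := by exact_mod_cast hT16
  have hlog1 : 1 ≤ Real.log T := by
    rw [Real.le_log_iff_exp_le (by linarith)]
    have := Real.exp_one_lt_d9
    linarith
  have hlog0 : 0 < Real.log T := by linarith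
  have hl : 0 ≤ Real.log (Real.log T) := Real.log_nonneg hlog1
  have hp : ∀ K' : ℕ, K' ≤ max (max K1 K2) 16 → (T : ℝ) ^ ((K' : ℝ) * Real.log (Real.log T)) ≤ H := by
    intro K' hK'
    refine le_trans ?_ hH
    refine Real.rpow_le_rpow_of_exponent_le (by linarith) ?_
    exact mul_le_mul_of_nonneg_right (by exact_mod_cast hK') hl
  have hd : drift r 0 = r + 1 / 2 := by simp [drift]
  have hB : ∀ c, Real.log ‖eulerProduct (W c) T (1 + ((0 : ℝ) : ℂ) * Complex.I)‖ = -Real.log (birchProduct (W c) T) := by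
    intro c
    rw [birch_eq, Real.log_inv]
  have h1 := hK1 T H (((le_max_left _ _).trans (le_max_left _ _)).trans hT) (hp K1 ((le_max_left _ _).trans (le_max_left _ _)))
  have h2 := hK2 T H (((le_max_right _ _).trans (le_max_left _ _)).trans hT) (hp K2 ((le_max_right _ _).trans (le_max_left _ _)))
  have e1 : ∀ c, (∀ _ : Fin 1, β * Real.log (Real.log T) ≤ -1 * (Real.log ‖eulerProduct (W c) T (1 + ((0 : ℝ) : ℂ) * Complex.I)‖ +
      drift r 0 * Real.log (Real.log T))) ↔ Real.log T ^ (r + 1 / 2 + β) ≤ birchProduct (W c) T := by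
    intro c
    rw [hB, hd, ← Real.log_le_log_iff (Real.rpow_pos_of_pos hlog0 _) (birch_pos _ _), Real.log_rpow hlog0]
    constructor
    · intro h3
      have := h3 0
      linarith
    · intro h3 _
      linarith
  have e2 : ∀ c, (∀ _ : Fin 1, β * Real.log (Real.log T) ≤ 1 * (Real.log ‖eulerProduct (W c) T (1 + ((0 : ℝ) : ℂ) * Complex.I)‖ +
      drift r 0 * Real.log (Real.log T))) ↔ birchProduct (W c) T ≤ Real.log T ^ (r + 1 / 2 - β) := by
    intro c
    rw [hB, hd, ← Real.log_le_log_iff (birch_pos _ _) (Real.rpow_pos_of_pos hlog0 _), Real.log_rpow hlog0]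
    constructor
    · intro h3
      have := h3 0
      linarith
    · intro h3 _
      linarith
  have e3 : (fun c : Fin n → ℤ => ∀ _ : Fin 1, β * Real.log (Real.log T) ≤
      -1 * (Real.log ‖eulerProduct (W c) T (1 + ((0 : ℝ) : ℂ) * Complex.I)‖ + drift r 0 * Real.log (Real.log T))) =
      fun c => Real.log T ^ (r + 1 / 2 + β) ≤ birchProduct (W c) T := by
    funext c
    exact propext (e1 c)
  have e4 : (fun c : Fin n → ℤ => ∀ _ : Fin 1, β * Real.log (Real.log T) ≤
      1 * (Real.log ‖eulerProduct (W c) T (1 + ((0 : ℝ) : ℂ) * Complex.I)‖ + drift r 0 * Real.log (Real.log T))) =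
      fun c => birchProduct (W c) T ≤ Real.log T ^ (r + 1 / 2 - β) := by
    funext c
    exact propext (e2 c)
  constructor
  · rw [← e3]
    exact h1
  · rw [← e4]
    exact h2

/-- **The large deviations of the products of Birch and Swinnerton-Dyer and of the partial Euler products on the line
`Re s = 1`, for families with `r = 0, 1, 2, 6` marked points.** -/
theorem result :
    (JointTails curves0 0 ∧ BirchTails curves0 0) ∧
    ((∀ c, On (curves1 c) (0, 0)) ∧ JointTails curves1 1 ∧ BirchTails curves1 1) ∧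
    ((∀ c, On (curves2 c) (0, 0) ∧ On (curves2 c) (1, 0)) ∧ JointTails curves2 2 ∧ BirchTails curves2 2) ∧
    ((∀ c i, On (curves6 c) (marks c i)) ∧ JointTails curves6 6 ∧ BirchTails curves6 6) := by
  have j0 : JointTails curves0 0 := joint_of Pool.Agent.X280.HP.redV0 Pool.Agent.X280.BP.dat0
  have j1 : JointTails curves1 1 := joint_of Pool.Agent.X280.HP.redV1 Pool.Agent.X280.BP.dat1
  have j2 : JointTails curves2 2 := joint_of Pool.Agent.X280.HP.redV2 Pool.Agent.X280.BP.dat2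
  have j6 : JointTails curves6 6 := joint_of Pool.Agent.X280.HP.redV6 Pool.Agent.X280.BP.dat6
  exact ⟨⟨j0, birch_of j0⟩, ⟨fun c => Pool.Agent.X280.HP.on1 c, j1, birch_of j1⟩,
    ⟨fun c => Pool.Agent.X280.HP.on2 c, j2, birch_of j2⟩, ⟨fun c i => Pool.Agent.X280.HP.on6 c i, j6, birch_of j6⟩⟩

end Pool.Agent.Results.MP_ad1693_nt.LargeDeviations
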