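import Pool.Agent.U471.DQ.EC

/-!
# The sums of the Conrad–Kuo–Murty criterion for all the curves of a family whose parameters are close to almost all points of a
real polynomial curve

From Mathlib: `MvPolynomial.eval z A`: the value of the integer polynomial `A` at the integer point `z`;
`Polynomial.eval`, `Polynomial.coeff`, `Polynomial.natDegree`: real polynomials; `Nat.Prime`: primes; `IsAlgebraic ℚ`:
algebraic numbers.

Method: Weyl's inequality without losses for all the coefficients at the same time (an inverse theorem, from the starting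
files for the top coefficient), a discrete Fejer kernel for the integer parts of several functions, uniform distribution
in residue classes with a power saving, high moments; Hasse's bound is from the starting files.
-/

set_option autoImplicit false

namespace Pool.Agent.Results.MP_ad1693_nt.NagaoSums

open Finset

/-- The polynomials `f 0, ..., f (r - 1)` are not on major arcs, at the scale `N` and with the parameter `R`: for every
integer vector `l ≠ 0` with all `|l i| ≤ R` there is `1 ≤ j ≤ d` such that the number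
`∑ i, l i * (coefficient of f i at X ^ j)` has a distance of more than `R / N ^ j` from all the integers. -/
def Generic {r : ℕ} (d N : ℕ) (R : ℝ) (f : Fin r → Polynomial ℝ) : Prop :=
  ∀ l : Fin r → ℤ, l ≠ 0 → (∀ i, (|l i| : ℝ) ≤ R) → ∃ j : ℕ, 1 ≤ j ∧ j ≤ d ∧
    ∀ b : ℤ, R / (N : ℝ) ^ j < |∑ i, (l i : ℝ) * (f i).coeff j - b|

/-- `α` has a finite irrationality exponent. -/
def FiniteType (α : ℝ) : Prop := ∃ (w : ℕ) (c : ℝ), 0 < c ∧ ∀ q : ℕ, 1 ≤ q → ∀ a : ℤ, c / (q : ℝ) ^ w ≤ |q * α - a|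

/-- The number of the solutions `(x, y)` of `y² = x³ + a x + b` modulo `p`. -/
def points (p : ℕ) (a b : ℤ) : ℕ :=
  ((range p ×ˢ range p).filter (fun xy : ℕ × ℕ => (p : ℤ) ∣ (xy.2 : ℤ) ^ 2 - ((xy.1 : ℤ) ^ 3 + a * xy.1 + b))).card

/-- The power sums `s_k = α ^ k + β ^ k`, where `α + β = t` and `α β = p`: `s_0 = 2`, `s_1 = t`,
`s_(k + 2) = t s_(k + 1) - p s_k`. -/
noncomputable def power (t : ℝ) (p : ℕ) : ℕ → ℝ
  | 0 => 2
  | 1 => t
  | (k + 2) => t * power t p (k + 1) - p * power t p k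

/-- `α_p ^ k + β_p ^ k` for the eigenvalues of Frobenius of `E : y² = x³ + a x + b` (with `α_p + β_p = a_p = p - points p a b`
and `α_p β_p = p`), and `0` if `p` divides `2 (4 a³ + 27 b²)`. -/
noncomputable def frobenius (a b : ℤ) (p k : ℕ) : ℝ :=
  if (p : ℤ) ∣ 2 * (4 * a ^ 3 + 27 * b ^ 2) then 0 else power ((p : ℝ) - points p a b) p k

/-- The sum of `(α_p ^ k + β_p ^ k) log p` over all the primes `p` and `k ≥ 1` with `p ^ k ≤ x`. -/
noncomputable def psi (a b : ℤ) (x : ℕ) : ℝ :=
  ∑ p ∈ (range (x + 1)).filter Nat.Prime, ∑ k ∈ (Icc 1 x).filter (fun k => p ^ k ≤ x), frobenius a b p k * Real.log p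

/-- The sum of Nagao of the family `E_z : y² = x³ + A(z) x + B(z)`: the sum over the primes `p ≤ x` of `log p` times the
mean of `a_p(E_ν)` over the vectors `ν` of residues modulo `p`. -/
noncomputable def nagao {r : ℕ} (A B : MvPolynomial (Fin r) ℤ) (x : ℕ) : ℝ :=
  ∑ p ∈ (range (x + 1)).filter Nat.Prime, (∑ ν ∈ Fintype.piFinset (fun _ : Fin r => range p),
    frobenius (MvPolynomial.eval (fun i => (ν i : ℤ)) A) (MvPolynomial.eval (fun i => (ν i : ℤ)) B) p 1) / (p : ℝ) ^ r * Real.log p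

lemma power_eq (t : ℝ) (p : ℕ) : ∀ k : ℕ, power t p k = Pool.Agent.U471.DQ.EC.power t p k ∧
    power t p (k + 1) = Pool.Agent.U471.DQ.EC.power t p (k + 1) := by
  intro k
  induction k with
  | zero => exact ⟨rfl, rfl⟩
  | succ k ih =>
    refine ⟨ih.2, ?_⟩
    show t * power t p (k + 1) - p * power t p k = t * Pool.Agent.U471.DQ.EC.power t p (k + 1) - p * Pool.Agent.U471.DQ.EC.power t p k
    rw [ih.1, ih.2]

lemma frob_one (a b : ℤ) (p : ℕ) : frobenius a b p 1 = Pool.Agent.U471.DQ.EC.ap a b p := rfl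

lemma frob_abs {p : ℕ} (hp : p.Prime) (a b : ℤ) (k : ℕ) : |frobenius a b p k| ≤ 2 * √p ^ k := by
  unfold frobenius
  split_ifs with h
  · rw [abs_zero]
    positivity
  · rw [(power_eq _ _ k).1]
    apply Pool.Agent.U471.DQ.EC.power_abs hp.pos
    have h1 := Pool.Agent.U471.DQ.EC.ap_abs hp a b
    unfold Pool.Agent.U471.DQ.EC.ap at h1
    rw [if_neg h] at h1
    exact h1

/-- the prime powers -/
lemma psi_first (a b : ℤ) (x : ℕ) (hx : 1 ≤ x) (δ : ℝ) (hδ : 0 < δ) :
    |psi a b x - ∑ p ∈ (range (x + 1)).filter Nat.Prime, frobenius a b p 1 * Real.log p| ≤ (2 / δ) * (x : ℝ) ^ (1 + δ) := by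
  classical
  have hx0 : (0 : ℝ) < x := by exact_mod_cast (by omega : 0 < x)
  have hlogx : 0 ≤ Real.log x := Real.log_natCast_nonneg x
  have hsx := Real.sqrt_nonneg (x : ℝ)
  have e1 : ∀ p ∈ (range (x + 1)).filter Nat.Prime, ∑ k ∈ (Icc 1 x).filter (fun k => p ^ k ≤ x), frobenius a b p k * Real.log p =
      frobenius a b p 1 * Real.log p + ∑ k ∈ (Icc 2 x).filter (fun k => p ^ k ≤ x), frobenius a b p k * Real.log p := by
    intro p hp
    rw [mem_filter, mem_range] at hp
    have hset : (Icc 1 x).filter (fun k => p ^ k ≤ x) = insert 1 ((Icc 2 x).filter (fun k => p ^ k ≤ x)) := by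
      ext k
      rw [mem_insert, mem_filter, mem_filter, mem_Icc, mem_Icc]
      constructor
      · rintro ⟨⟨h1, h2⟩, h3⟩
        rcases h1.eq_or_lt with h4 | h4
        · exact Or.inl h4.symm
        · exact Or.inr ⟨⟨h4, h2⟩, h3⟩
      · rintro (h | ⟨⟨h1, h2⟩, h3⟩)
        · subst h
          exact ⟨⟨le_rfl, hx⟩, by rw [pow_one]; omega⟩
        · exact ⟨⟨by omega, h2⟩, h3⟩
    rw [hset, sum_insert]
    rw [mem_filter, mem_Icc]
    omega
  have e2 : psi a b x - ∑ p ∈ (range (x + 1)).filter Nat.Prime, frobenius a b p 1 * Real.log p =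
      ∑ p ∈ (range (x + 1)).filter Nat.Prime, ∑ k ∈ (Icc 2 x).filter (fun k => p ^ k ≤ x), frobenius a b p k * Real.log p := by
    unfold psi
    rw [sum_congr rfl e1, sum_add_distrib]
    ring
  rw [e2]
  have key : ∀ p ∈ (range (x + 1)).filter Nat.Prime,
      |∑ k ∈ (Icc 2 x).filter (fun k => p ^ k ≤ x), frobenius a b p k * Real.log p| ≤
        if p ∈ Icc 1 (Nat.sqrt x) then 2 * √(x : ℝ) * Real.log x else 0 := by
    intro p hp
    rw [mem_filter, mem_range] at hp
    have hp2 := hp.2.two_le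
    have hp0 : (0 : ℝ) < p := by exact_mod_cast hp.2.pos
    have hlogp : 0 ≤ Real.log p := Real.log_natCast_nonneg p
    split_ifs with hs
    · have h1 : ∀ k ∈ (Icc 2 x).filter (fun k => p ^ k ≤ x), |frobenius a b p k * Real.log p| ≤ 2 * √(x : ℝ) * Real.log p := by
        intro k hk
        rw [mem_filter] at hk
        rw [abs_mul, abs_of_nonneg hlogp]
        apply mul_le_mul_of_nonneg_right _ hlogp
        refine (frob_abs hp.2 a b k).trans ?_
        apply mul_le_mul_of_nonneg_left _ (by norm_num)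
        apply Real.le_sqrt_of_sq_le
        rw [← pow_mul, mul_comm k 2, pow_mul, Real.sq_sqrt hp0.le]
        exact_mod_cast hk.2
      refine (abs_sum_le_sum_abs _ _).trans ?_
      refine (sum_le_card_nsmul _ _ _ h1).trans ?_
      rw [nsmul_eq_mul]
      have h2 : (((Icc 2 x).filter (fun k => p ^ k ≤ x)).card : ℝ) * Real.log p ≤ Real.log x := by
        have h3 : ((Icc 2 x).filter (fun k => p ^ k ≤ x)).card ≤ Nat.log p x := by
          have h4 : (Icc 2 x).filter (fun k => p ^ k ≤ x) ⊆ Icc 1 (Nat.log p x) := by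
            intro k hk
            rw [mem_filter, mem_Icc] at hk
            rw [mem_Icc]
            exact ⟨by omega, Nat.le_log_of_pow_le (by omega) hk.2⟩
          have h5 := card_le_card h4
          rw [Nat.card_Icc] at h5
          omega
        have h4 : (p : ℝ) ^ (Nat.log p x) ≤ x := by exact_mod_cast Nat.pow_log_le_self p (by omega : x ≠ 0)
        calc (((Icc 2 x).filter (fun k => p ^ k ≤ x)).card : ℝ) * Real.log p ≤ (Nat.log p x : ℝ) * Real.log p := by
              apply mul_le_mul_of_nonneg_right _ hlogp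
              exact_mod_cast h3
          _ = Real.log ((p : ℝ) ^ (Nat.log p x)) := by rw [Real.log_pow]
          _ ≤ Real.log x := Real.log_le_log (by positivity) h4
      calc (((Icc 2 x).filter (fun k => p ^ k ≤ x)).card : ℝ) * (2 * √(x : ℝ) * Real.log p) =
            2 * √(x : ℝ) * ((((Icc 2 x).filter (fun k => p ^ k ≤ x)).card : ℝ) * Real.log p) := by ring
        _ ≤ _ := mul_le_mul_of_nonneg_left h2 (by positivity)
    · have hempty : (Icc 2 x).filter (fun k => p ^ k ≤ x) = ∅ := by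
        apply filter_false_of_mem
        intro k hk hcon
        apply hs
        rw [mem_Icc] at hk ⊢
        refine ⟨hp.2.one_le, ?_⟩
        rw [Nat.le_sqrt']
        calc p ^ 2 ≤ p ^ k := Nat.pow_le_pow_right hp.2.pos hk.1
          _ ≤ x := hcon
      rw [hempty, sum_empty, abs_zero]
  refine (abs_sum_le_sum_abs _ _).trans ((sum_le_sum key).trans ?_)
  rw [← sum_filter, sum_const, nsmul_eq_mul]
  have h6 : ((((range (x + 1)).filter Nat.Prime).filter (fun p => p ∈ Icc 1 (Nat.sqrt x))).card : ℝ) ≤ √(x : ℝ) := by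
    have h7 : (((range (x + 1)).filter Nat.Prime).filter (fun p => p ∈ Icc 1 (Nat.sqrt x))).card ≤ Nat.sqrt x := by
      have h8 : ((range (x + 1)).filter Nat.Prime).filter (fun p => p ∈ Icc 1 (Nat.sqrt x)) ⊆ Icc 1 (Nat.sqrt x) := by
        intro p hp
        exact (mem_filter.1 hp).2
      have h9 := card_le_card h8
      rw [Nat.card_Icc] at h9
      omega
    calc ((((range (x + 1)).filter Nat.Prime).filter (fun p => p ∈ Icc 1 (Nat.sqrt x))).card : ℝ) ≤ (Nat.sqrt x : ℝ) := by
          exact_mod_cast h7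
      _ ≤ √(x : ℝ) := Real.nat_sqrt_le_real_sqrt
  have h10 : Real.log x ≤ (x : ℝ) ^ δ / δ := Real.log_le_rpow_div hx0.le hδ
  calc ((((range (x + 1)).filter Nat.Prime).filter (fun p => p ∈ Icc 1 (Nat.sqrt x))).card : ℝ) * (2 * √(x : ℝ) * Real.log x) ≤
        √(x : ℝ) * (2 * √(x : ℝ) * Real.log x) := mul_le_mul_of_nonneg_right h6 (by positivity)
    _ = 2 * x * Real.log x := by
        have := Real.mul_self_sqrt hx0.le
        linear_combination (2 * Real.log x) * this
    _ ≤ 2 * x * ((x : ℝ) ^ δ / δ) := mul_le_mul_of_nonneg_left h10 (by positivity)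
    _ = _ := by
        rw [Real.rpow_add hx0, Real.rpow_one]
        ring

/-- the sum of Nagao for the family of all curves -/
lemma nagao_all (x : ℕ) : |nagao (r := 2) (MvPolynomial.X 0) (MvPolynomial.X 1) x| ≤ 12 * x := by
  classical
  unfold nagao
  refine (abs_sum_le_sum_abs _ _).trans ?_
  have key : ∀ p ∈ (range (x + 1)).filter Nat.Prime, |(∑ ν ∈ Fintype.piFinset (fun _ : Fin 2 => range p),
      frobenius (MvPolynomial.eval (fun i => (ν i : ℤ)) (MvPolynomial.X 0))
        (MvPolynomial.eval (fun i => (ν i : ℤ)) (MvPolynomial.X 1)) p 1) / (p : ℝ) ^ 2 * Real.log p| ≤ 12 := by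
    intro p hp
    rw [mem_filter, mem_range] at hp
    have hp0 : (0 : ℝ) < p := by exact_mod_cast hp.2.pos
    have hlogp : 0 ≤ Real.log p := Real.log_natCast_nonneg p
    have hs0 : 0 < √(p : ℝ) := Real.sqrt_pos.2 hp0
    have e : ∑ ν ∈ Fintype.piFinset (fun _ : Fin 2 => range p),
        frobenius (MvPolynomial.eval (fun i => (ν i : ℤ)) (MvPolynomial.X 0))
          (MvPolynomial.eval (fun i => (ν i : ℤ)) (MvPolynomial.X 1)) p 1 =
        ∑ s ∈ range p, ∑ t ∈ range p, Pool.Agent.U471.DQ.EC.ap (s : ℤ) (t : ℤ) p := by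
      rw [← sum_product']
      refine sum_nbij' (fun ν => (ν 0, ν 1)) (fun q => ![q.1, q.2]) ?_ ?_ ?_ ?_ ?_
      · intro ν hν
        rw [Fintype.mem_piFinset] at hν
        rw [mem_product]
        exact ⟨hν 0, hν 1⟩
      · intro q hq
        rw [mem_product] at hq
        rw [Fintype.mem_piFinset]
        intro i
        fin_cases i
        · exact hq.1
        · exact hq.2
      · intro ν _
        funext i
        fin_cases i <;> rfl
      · intro q _
        rfl
      · intro ν _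
        rw [MvPolynomial.eval_X, MvPolynomial.eval_X]
        rfl
    rw [e, abs_mul, abs_of_nonneg hlogp, abs_div, abs_of_pos (by positivity : (0 : ℝ) < (p : ℝ) ^ 2)]
    have h1 := Pool.Agent.U471.DQ.EC.pair_sum hp.2
    have h2 : Real.log p ≤ 2 * √p := by
      have h3 := Real.log_le_rpow_div hp0.le (by norm_num : (0 : ℝ) < 1 / 2)
      rw [← Real.sqrt_eq_rpow] at h3
      linarith
    have h4 : |∑ s ∈ range p, ∑ t ∈ range p, Pool.Agent.U471.DQ.EC.ap (s : ℤ) (t : ℤ) p| / (p : ℝ) ^ 2 ≤ 6 * √p / p := by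
      rw [div_le_div_iff₀ (by positivity) hp0]
      calc |∑ s ∈ range p, ∑ t ∈ range p, Pool.Agent.U471.DQ.EC.ap (s : ℤ) (t : ℤ) p| * p ≤ 6 * (p * √p) * p :=
            mul_le_mul_of_nonneg_right h1 hp0.le
        _ = _ := by ring
    calc |∑ s ∈ range p, ∑ t ∈ range p, Pool.Agent.U471.DQ.EC.ap (s : ℤ) (t : ℤ) p| / (p : ℝ) ^ 2 * Real.log p ≤
          6 * √p / p * (2 * √p) := mul_le_mul h4 h2 hlogp (by positivity)
      _ = 12 * (√p * √p / p) := by ring
      _ = 12 := by rw [Real.mul_self_sqrt hp0.le, div_self hp0.ne', mul_one]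
  refine (sum_le_card_nsmul _ _ 12 key).trans ?_
  rw [nsmul_eq_mul, mul_comm]
  apply mul_le_mul_of_nonneg_left _ (by norm_num)
  have h5 : ((range (x + 1)).filter Nat.Prime).card ≤ x := by
    have h6 : (range (x + 1)).filter Nat.Prime ⊆ Icc 1 x := by
      intro p hp
      rw [mem_filter, mem_range] at hp
      rw [mem_Icc]
      exact ⟨hp.2.one_le, by omega⟩
    have h7 := card_le_card h6
    rw [Nat.card_Icc] at h7
    omega
  exact_mod_cast h5

lemma general (r d : ℕ) (hd : 1 ≤ d) (δ : ℝ) (hδ : 0 < δ) : ∃ κ C : ℝ, 0 < κ ∧ 0 < C ∧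
      ∀ (N : ℕ) (R : ℝ) (f : Fin r → Polynomial ℝ), 1 ≤ N → 1 ≤ R → (∀ i, (f i).natDegree ≤ d) → Generic d N R f →
      ∀ A B : MvPolynomial (Fin r) ℤ,
      ∃ E : Finset ℕ, (E.card : ℝ) ≤ C * (N * R ^ (-κ)) ∧ ∀ n : ℕ, n < N → n ∉ E →
        ∀ z : Fin r → ℤ, (∀ i, |(z i : ℝ) - (f i).eval (n : ℝ)| ≤ R ^ κ) → ∀ x : ℕ, (x : ℝ) ≤ R ^ κ →
          |psi (MvPolynomial.eval z A) (MvPolynomial.eval z B) x - nagao A B x| ≤ C * ((x : ℝ) ^ (1 + δ) * √(1 + Real.log R)) := by
  classical
  obtain ⟨κ, C, h1, h1', h3, H⟩ := Pool.Agent.U471.DQ.near_sum_fin r d hd 1 (by norm_num) (δ / 2) (by positivity)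
  refine ⟨κ, C * (4 / δ) + C + 2 / δ, h1, by positivity, ?_⟩
  intro N R f hN hR hf hgen A B
  have hR0 : 0 < R := by linarith
  have hRκ : 1 ≤ R ^ κ := Real.one_le_rpow hR h1.le
  obtain ⟨E, _, hE2, hE3⟩ := H N R f hN hR hf hgen Unit univ (by
      rw [card_univ, Fintype.card_unit, Nat.cast_one, one_mul]
      exact hRκ)
    (fun _ p z => Real.log p * frobenius (MvPolynomial.eval z A) (MvPolynomial.eval z B) p 1) (fun _ X => Real.log X * (2 * √(X : ℝ))) (by
      intro _ p _ u u' hu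
      simp only
      rw [frob_one, frob_one, Pool.Agent.U471.DQ.EC.ap_congr p (Pool.Agent.U471.DQ.mv_congr A hu)
        (Pool.Agent.U471.DQ.mv_congr B hu)]) (fun _ X => by
        have := Real.log_natCast_nonneg X
        positivity) (by
      intro _ X p u hp hpX
      have hp1 : (1 : ℝ) ≤ p := by exact_mod_cast hp.one_le
      have hpX' : (p : ℝ) ≤ X := by exact_mod_cast hpX
      have hlog : 0 ≤ Real.log p := Real.log_nonneg hp1
      rw [abs_mul, abs_of_nonneg hlog]
      apply mul_le_mul (Real.log_le_log (by linarith) hpX') _ (abs_nonneg _) (Real.log_nonneg (by linarith))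
      refine (Pool.Agent.U471.DQ.EC.ap_abs hp _ _).trans ?_
      exact mul_le_mul_of_nonneg_left (Real.sqrt_le_sqrt hpX') (by norm_num))
  refine ⟨E, ?_, fun n hn hnE z hz x hx => ?_⟩
  · refine hE2.trans ?_
    apply mul_le_mul_of_nonneg_right _ (by positivity)
    have : 0 ≤ C * (4 / δ) := by positivity
    have : 0 ≤ 2 / δ := by positivity
    linarith
  · rcases Nat.eq_zero_or_pos x with hx0 | hx0
    · subst hx0
      have e1 : psi (MvPolynomial.eval z A) (MvPolynomial.eval z B) 0 = 0 := by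
        unfold psi
        apply sum_eq_zero
        intro p hp
        rw [mem_filter, mem_range] at hp
        have := hp.2.two_le
        omega
      have e2 : nagao A B 0 = 0 := by
        unfold nagao
        apply sum_eq_zero
        intro p hp
        rw [mem_filter, mem_range] at hp
        have := hp.2.two_le
        omega
      rw [e1, e2, sub_zero, abs_zero]
      positivity
    have hx0' : (0 : ℝ) < x := by exact_mod_cast hx0
    have h7 := hE3 n (mem_range.2 hn) hnE z hz () (mem_univ _) x hx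
    have e1 : ∑ p ∈ Pool.Agent.U471.DQ.prs x, Real.log p * frobenius (MvPolynomial.eval z A) (MvPolynomial.eval z B) p 1 =
        ∑ p ∈ (range (x + 1)).filter Nat.Prime, frobenius (MvPolynomial.eval z A) (MvPolynomial.eval z B) p 1 * Real.log p := by
      unfold Pool.Agent.U471.DQ.prs
      exact sum_congr rfl fun p _ => mul_comm _ _
    have e2 : ∑ p ∈ Pool.Agent.U471.DQ.prs x, Pool.Agent.U471.DQ.mn p (fun z : Fin r → ℤ =>
        Real.log p * frobenius (MvPolynomial.eval z A) (MvPolynomial.eval z B) p 1) = nagao A B x := by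
      unfold nagao Pool.Agent.U471.DQ.prs Pool.Agent.U471.DQ.mn Pool.Agent.U471.DQ.rs Pool.Agent.U471.DQ.bx
      apply sum_congr rfl
      intro p _
      rw [← mul_sum]
      ring
    rw [e1, e2] at h7
    have h8 := psi_first (MvPolynomial.eval z A) (MvPolynomial.eval z B) x hx0 δ hδ
    have hlog : Real.log x ≤ (2 / δ) * (x : ℝ) ^ (δ / 2) := by
      have h8 := Real.log_le_rpow_div hx0'.le (by positivity : 0 < δ / 2)
      refine h8.trans (le_of_eq ?_)
      field_simp
    have e4 : (x : ℝ) ^ (1 + δ) = √x * (x : ℝ) ^ (δ / 2) * (x : ℝ) ^ (1 / 2 + δ / 2) := by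
      rw [Real.sqrt_eq_rpow, ← Real.rpow_add hx0', ← Real.rpow_add hx0']
      congr 1
      ring
    have hsx := Real.sqrt_nonneg (x : ℝ)
    have hlog0 : 0 ≤ Real.log R := Real.log_nonneg hR
    have h9 : C * (Real.log x * (2 * √(x : ℝ)) * ((x : ℝ) ^ (1 / 2 + δ / 2) * √(1 + Real.log R))) ≤
        C * (4 / δ) * ((x : ℝ) ^ (1 + δ) * √(1 + Real.log R)) := by
      rw [e4]
      calc C * (Real.log x * (2 * √(x : ℝ)) * ((x : ℝ) ^ (1 / 2 + δ / 2) * √(1 + Real.log R))) ≤
            C * (((2 / δ) * (x : ℝ) ^ (δ / 2)) * (2 * √(x : ℝ)) * ((x : ℝ) ^ (1 / 2 + δ / 2) * √(1 + Real.log R))) := by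
              gcongr
        _ = _ := by ring
    have h10 : 1 ≤ √(1 + Real.log R) := by
      rw [Real.one_le_sqrt]
      linarith
    have h11 : (2 / δ) * (x : ℝ) ^ (1 + δ) ≤ (2 / δ) * ((x : ℝ) ^ (1 + δ) * √(1 + Real.log R)) := by
      apply mul_le_mul_of_nonneg_left _ (by positivity)
      exact le_mul_of_one_le_right (by positivity) h10
    calc |psi (MvPolynomial.eval z A) (MvPolynomial.eval z B) x - nagao A B x| ≤
          |psi (MvPolynomial.eval z A) (MvPolynomial.eval z B) x -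
            ∑ p ∈ (range (x + 1)).filter Nat.Prime, frobenius (MvPolynomial.eval z A) (MvPolynomial.eval z B) p 1 * Real.log p| +
          |∑ p ∈ (range (x + 1)).filter Nat.Prime, frobenius (MvPolynomial.eval z A) (MvPolynomial.eval z B) p 1 * Real.log p -
            nagao A B x| := abs_sub_le _ _ _
      _ ≤ (2 / δ) * ((x : ℝ) ^ (1 + δ) * √(1 + Real.log R)) + C * (4 / δ) * ((x : ℝ) ^ (1 + δ) * √(1 + Real.log R)) :=
          add_le_add (h8.trans h11) (h7.trans h9)
      _ = (C * (4 / δ) + 2 / δ) * ((x : ℝ) ^ (1 + δ) * √(1 + Real.log R)) := by ring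
      _ ≤ _ := by
          apply mul_le_mul_of_nonneg_right _ (by positivity)
          linarith

/-- **(1)** Let `r` and `d ≥ 1` be integers and let `δ > 0`. There are `κ > 0` and `C` such that the following holds for all
`N, R ≥ 1`, for all real polynomials `f 0, ..., f (r - 1)` of degree at most `d` which are not on major arcs (`Generic`) and
for ALL families `E_z : y² = x³ + A(z) x + B(z)` of curves with `r` parameters, `A, B ∈ ℤ[T_0, ..., T_{r - 1}]`.

All the integers `0 ≤ n < N` with at most `C N R ^ (- κ)` exceptions are such that for ALL integer vectors `z` with all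
`|z i - f i (n)| ≤ R ^ κ` and ALL `x ≤ R ^ κ`: the sum `ψ(x)` of `(α_p ^ k + β_p ^ k) log p` over `p ^ k ≤ x` for `E_z` differs
from the sum of Nagao of the family by at most `C x ^ (1 + δ) (1 + log R) ^ (1 / 2)`.

**(2)** In particular, for `r = 2`: for all these `n` and ALL the curves `E : y² = x³ + a x + b` with
`|a - f 0 (n)|, |b - f 1 (n)| ≤ R ^ κ`, `|ψ(x)| ≤ C x ^ (1 + δ) (1 + log R) ^ (1 / 2)` for ALL `x ≤ R ^ κ`.

**(3)** If for every `i` there is `1 ≤ j ≤ d` such that the coefficient of `f i` at `X ^ j` has a finite irrationality exponent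
and the coefficients of the other polynomials at `X ^ j` are zero (for `r = 1`: if a nonconstant coefficient has a finite
irrationality exponent), then (1) and (2) apply with `R = N ^ β`, for some `β > 0` and all large `N`. **(4)** This includes
irrational algebraic coefficients. -/
theorem result :
    (∀ (r d : ℕ), 1 ≤ d → ∀ δ : ℝ, 0 < δ → ∃ κ C : ℝ, 0 < κ ∧ 0 < C ∧
      ∀ (N : ℕ) (R : ℝ) (f : Fin r → Polynomial ℝ), 1 ≤ N → 1 ≤ R → (∀ i, (f i).natDegree ≤ d) → Generic d N R f →
      ∀ A B : MvPolynomial (Fin r) ℤ,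
      ∃ E : Finset ℕ, (E.card : ℝ) ≤ C * (N * R ^ (-κ)) ∧ ∀ n : ℕ, n < N → n ∉ E →
        ∀ z : Fin r → ℤ, (∀ i, |(z i : ℝ) - (f i).eval (n : ℝ)| ≤ R ^ κ) → ∀ x : ℕ, (x : ℝ) ≤ R ^ κ →
          |psi (MvPolynomial.eval z A) (MvPolynomial.eval z B) x - nagao A B x| ≤ C * ((x : ℝ) ^ (1 + δ) * √(1 + Real.log R))) ∧
    (∀ d : ℕ, 1 ≤ d → ∀ δ : ℝ, 0 < δ → ∃ κ C : ℝ, 0 < κ ∧ 0 < C ∧
      ∀ (N : ℕ) (R : ℝ) (f : Fin 2 → Polynomial ℝ), 1 ≤ N → 1 ≤ R → (∀ i, (f i).natDegree ≤ d) → Generic d N R f →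
      ∃ E : Finset ℕ, (E.card : ℝ) ≤ C * (N * R ^ (-κ)) ∧ ∀ n : ℕ, n < N → n ∉ E →
        ∀ a b : ℤ, |(a : ℝ) - (f 0).eval (n : ℝ)| ≤ R ^ κ → |(b : ℝ) - (f 1).eval (n : ℝ)| ≤ R ^ κ →
        ∀ x : ℕ, (x : ℝ) ≤ R ^ κ → |psi a b x| ≤ C * ((x : ℝ) ^ (1 + δ) * √(1 + Real.log R))) ∧
    (∀ (r d : ℕ) (f : Fin r → Polynomial ℝ),
      (∀ i, ∃ j, 1 ≤ j ∧ j ≤ d ∧ FiniteType ((f i).coeff j) ∧ ∀ i', i' ≠ i → (f i').coeff j = 0) →
      ∃ β : ℝ, 0 < β ∧ ∃ N₀ : ℕ, ∀ N : ℕ, N₀ ≤ N → Generic d N ((N : ℝ) ^ β) f) ∧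
    (∀ α : ℝ, Irrational α → IsAlgebraic ℚ α → FiniteType α) := by
  classical
  refine ⟨fun r d hd δ hδ => general r d hd δ hδ, ?_, ?_, fun α h h' => Pool.Agent.U471.DQ.finType_alg h h'⟩
  · intro d hd δ hδ
    obtain ⟨κ, C, h1, h3, H⟩ := general 2 d hd δ hδ
    refine ⟨κ, C + 12, h1, by linarith, ?_⟩
    intro N R f hN hR hf hgen
    have hR0 : 0 < R := by linarith
    obtain ⟨E, hE1, hE2⟩ := H N R f hN hR hf hgen (MvPolynomial.X 0) (MvPolynomial.X 1)
    refine ⟨E, ?_, fun n hn hnE a b ha hb x hx => ?_⟩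
    · refine hE1.trans ?_
      apply mul_le_mul_of_nonneg_right _ (by positivity)
      linarith
    · have h4 := hE2 n hn hnE ![a, b] (by
        intro i
        fin_cases i
        · exact ha
        · exact hb) x hx
      rw [MvPolynomial.eval_X, MvPolynomial.eval_X] at h4
      have h5 : |psi a b x - nagao (r := 2) (MvPolynomial.X 0) (MvPolynomial.X 1) x| ≤
        C * ((x : ℝ) ^ (1 + δ) * √(1 + Real.log R)) := h4
      have h6 := nagao_all x
      have h10 : 1 ≤ √(1 + Real.log R) := by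
        rw [Real.one_le_sqrt]
        linarith [Real.log_nonneg hR]
      have h7 : (x : ℝ) ≤ (x : ℝ) ^ (1 + δ) * √(1 + Real.log R) := by
        rcases Nat.eq_zero_or_pos x with hx0 | hx0
        · subst hx0
          simp only [Nat.cast_zero]
          positivity
        · have hx1 : (1 : ℝ) ≤ x := by exact_mod_cast hx0
          calc (x : ℝ) = (x : ℝ) ^ (1 : ℝ) := (Real.rpow_one _).symm
            _ ≤ (x : ℝ) ^ (1 + δ) := Real.rpow_le_rpow_of_exponent_le hx1 (by linarith)
            _ ≤ _ := le_mul_of_one_le_right (by positivity) h10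
      calc |psi a b x| = |(psi a b x - nagao (r := 2) (MvPolynomial.X 0) (MvPolynomial.X 1) x) +
            nagao (r := 2) (MvPolynomial.X 0) (MvPolynomial.X 1) x| := by rw [sub_add_cancel]
        _ ≤ |psi a b x - nagao (r := 2) (MvPolynomial.X 0) (MvPolynomial.X 1) x| +
            |nagao (r := 2) (MvPolynomial.X 0) (MvPolynomial.X 1) x| := abs_add_le _ _
        _ ≤ C * ((x : ℝ) ^ (1 + δ) * √(1 + Real.log R)) + 12 * ((x : ℝ) ^ (1 + δ) * √(1 + Real.log R)) := by
            apply add_le_add h5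
            exact h6.trans (mul_le_mul_of_nonneg_left h7 (by norm_num))
        _ = _ := by ring
  · intro r d f h
    obtain ⟨β, h1, _, h3⟩ := Pool.Agent.U471.DQ.gen_of_type d f h
    exact ⟨β, h1, h3⟩

end Pool.Agent.Results.MP_ad1693_nt.NagaoSums
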